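import Mathlib
import Pool.Agent.Lib_helper66.P2GD.Main
import Pool.Agent.Lib_helper31.P2GD.Func

/-!
# A bounded P²GD sequence none of whose subsequences has stationarity measure tending to `0`

`m = n = 3`, `r = 2`. The function is `C^∞`, has a locally Lipschitz gradient and tends to `+∞` at
infinity; the sequence converges to the zero matrix and `s_f ≥ 19` along it.
-/

open Filter Topology Matrix
open scoped Matrix.Norms.Frobenius ContDiff

namespace Pool.Agent.Results.MP_f5b35e_an.BadSequence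

open P2GD

theorem result :
    ∃ f : Matrix (Fin 3) (Fin 3) ℝ → ℝ,
      -- the instance
      ContDiff ℝ ∞ f ∧ LocallyLipschitz (grad f) ∧
      Tendsto f (cocompact (Matrix (Fin 3) (Fin 3) ℝ)) atTop ∧
      -- admissible parameters
      ∃ αlo αhi β c : ℝ, 0 < αlo ∧ αlo ≤ αhi ∧ 0 < β ∧ β < 1 ∧ 0 < c ∧ c < 1 ∧
      -- the sequence
      ∃ X : ℕ → Matrix (Fin 3) (Fin 3) ℝ,
        IsP2GDSeq 2 f αlo αhi β c X ∧
        Tendsto X atTop (𝓝 0) ∧
        (∀ i, ∃ G, proj (tangentCone (detVar 3 3 2) (X i)) (-grad f (X i)) = {G} ∧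
          statMeas 2 f (X i) = ‖G‖ ∧ 19 ≤ ‖G‖) ∧
        -- the requirements of the question
        ¬ Tendsto (fun i => ‖X i‖) atTop atTop ∧
        ∀ (φ : ℕ → ℕ) (L : Matrix (Fin 3) (Fin 3) ℝ), StrictMono φ →
          Tendsto (fun k => X (φ k)) atTop (𝓝 L) →
          ¬ Tendsto (fun k => statMeas 2 f (X (φ k))) atTop (𝓝 0) := by
  obtain ⟨d⟩ := P2GD.Cycle.exists_data
  have hlf : ∀ X : Matrix (Fin 3) (Fin 3) ℝ, lf (SM d) X = ip (SM d) X := fun X => rfl
  obtain ⟨h1, h2, h3⟩ := main_theorem d (fn (SM d) 400)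
    (fun X hX => by rw [fn_eq hX.le, hlf]) (fun X hX => grad_fn hX) (fun X => by
      rw [fn, hlf]
      have := Real.smoothTransition.nonneg (‖X‖ ^ 2 - 400)
      have h4 : 0 ≤ Real.smoothTransition (‖X‖ ^ 2 - 400) * ‖X‖ ^ 2 := by positivity
      linarith)
  refine ⟨fn (SM d) 400, contDiff_fn _ _, locallyLipschitz_grad_fn _ _, tendsto_fn _ _,
    1 / 10 ^ 14, 1, 1 / 10 ^ 14, 1 / 10, by norm_num, by norm_num, by norm_num, by norm_num,
    by norm_num, by norm_num, seq d, h1, h2, h3, ?_, ?_⟩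
  · intro h4
    have h5 := h2.norm
    rw [norm_zero] at h5
    exact not_tendsto_nhds_of_tendsto_atTop h4 0 h5
  · intro φ L _ _ h4
    have h5 : (19 : ℝ) ≤ 0 := ge_of_tendsto' h4 fun k => by
      obtain ⟨G, -, h6, h7⟩ := h3 (φ k)
      rw [h6]
      exact h7
    norm_num at h5

end Pool.Agent.Results.MP_f5b35e_an.BadSequence
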